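import Mathlib

set_option autoImplicit false
set_option linter.unusedVariables false

namespace Pool.Agent.H.MP_c32163_co

open Finset

section
variable {R : Type} [CommSemiring R]
def P2 (m01 m02 m03 m04 m12 m13 m14 m23 m24 m34 d0 d1 d2 d3 d4 : R) : R :=
  d0 * d1 + d0 * d2 + d0 * d3 + d0 * d4 + d1 * d2 + d1 * d3 + d1 * d4 + d2 * d3 + d2 * d4 + d3 * d4
def N2 (m01 m02 m03 m04 m12 m13 m14 m23 m24 m34 d0 d1 d2 d3 d4 : R) : R :=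
  m01 * m01 + m02 * m02 + m03 * m03 + m04 * m04 + m12 * m12 + m13 * m13 + m14 * m14 + m23 * m23 + m24 * m24 + m34 * m34
def P3 (m01 m02 m03 m04 m12 m13 m14 m23 m24 m34 d0 d1 d2 d3 d4 : R) : R :=
  d0 * d1 * d2 + d0 * d1 * d3 + d0 * d1 * d4 + d0 * d2 * d3 + d0 * d2 * d4 + d0 * d3 * d4 + d1 * d2 * d3 + d1 * d2 * d4 + d1 * d3 * d4 + d2 * d3 * d4
def N3 (m01 m02 m03 m04 m12 m13 m14 m23 m24 m34 d0 d1 d2 d3 d4 : R) : R :=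
  (d2 + d3 + d4) * (m01 * m01) + (d1 + d3 + d4) * (m02 * m02) + (d1 + d2 + d4) * (m03 * m03) + (d1 + d2 + d3) * (m04 * m04) + (d0 + d3 + d4) * (m12 * m12) + (d0 + d2 + d4) * (m13 * m13) + (d0 + d2 + d3) * (m14 * m14) + (d0 + d1 + d4) * (m23 * m23) + (d0 + d1 + d3) * (m24 * m24) + (d0 + d1 + d2) * (m34 * m34) + 2 * (m01 * m02 * m12 + m01 * m03 * m13 + m01 * m04 * m14 + m02 * m03 * m23 + m02 * m04 * m24 + m03 * m04 * m34 + m12 * m13 * m23 + m12 * m14 * m24 + m13 * m14 * m34 + m23 * m24 * m34)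
def P4 (m01 m02 m03 m04 m12 m13 m14 m23 m24 m34 d0 d1 d2 d3 d4 : R) : R :=
  d0 * d1 * d2 * d3 + m01 * m01 * (m23 * m23) + m02 * m02 * (m13 * m13) + m03 * m03 * (m12 * m12)
def N4 (m01 m02 m03 m04 m12 m13 m14 m23 m24 m34 d0 d1 d2 d3 d4 : R) : R :=
  d2 * d3 * (m01 * m01) + d1 * d3 * (m02 * m02) + d1 * d2 * (m03 * m03) + d0 * d3 * (m12 * m12) + d0 * d2 * (m13 * m13) + d0 * d1 * (m23 * m23) + 2 * (d3 * (m01 * m02 * m12) + d2 * (m01 * m03 * m13) + d1 * (m02 * m03 * m23) + d0 * (m12 * m13 * m23) + m01 * m12 * m23 * m03 + m01 * m13 * m23 * m02 + m02 * m12 * m13 * m03)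
end

def Good (e1 p2 n2 p3 n3 p4 n4 : ℕ) : Prop :=
  n4 < p4 ∧ p4 ≤ n4 + 12 ∧ 23 * p4 + 3 * n3 ≤ 23 * n4 + 3 * p3 ∧
  (p2 + 24 ≤ n2 + 6 * e1 ∨ p3 + 4 * n2 + 12 * e1 ≤ n3 + 4 * p2 + 32 ∨
    5 * p4 + 2 * n3 + 4 * p2 + 16 ≤ 5 * n4 + 2 * p3 + 4 * n2 + 8 * e1)

instance (e1 p2 n2 p3 n3 p4 n4 : ℕ) : Decidable (Good e1 p2 n2 p3 n3 p4 n4) := by
  unfold Good; infer_instance

def force (n : ℕ) (f : ℕ → Bool) : Bool := Nat.rec (f 0) (fun k _ => f (Nat.succ k)) n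

lemma force_eq (n : ℕ) (f : ℕ → Bool) : force n f = f n := by cases n <;> rfl

def ok (m01 m02 m03 m04 m12 m13 m14 m23 m24 m34 : ℕ) : Bool :=
  Nat.beq (m01 + m02 + m03 + m04) 0 || Nat.beq (m01 + m12 + m13 + m14) 0 || Nat.beq (m02 + m03 + m04 + m12 + m13 + m14) 0 || Nat.beq (m02 + m12 + m23 + m24) 0 || Nat.beq (m01 + m03 + m04 + m12 + m23 + m24) 0 || Nat.beq (m01 + m13 + m14 + m02 + m23 + m24) 0 || Nat.beq (m03 + m04 + m13 + m14 + m23 + m24) 0 || Nat.beq (m03 + m13 + m23 + m34) 0 || Nat.beq (m01 + m02 + m04 + m13 + m23 + m34) 0 || Nat.beq (m01 + m12 + m14 + m03 + m23 + m34) 0 || Nat.beq (m02 + m04 + m12 + m14 + m23 + m34) 0 || Nat.beq (m02 + m12 + m24 + m03 + m13 + m34) 0 || Nat.beq (m01 + m04 + m12 + m24 + m13 + m34) 0 || Nat.beq (m01 + m14 + m02 + m24 + m03 + m34) 0 || Nat.beq (m04 + m14 + m24 + m34)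 0 ||
  force (m01 + m02 + m03 + m04) fun d0 =>
  force (m01 + m12 + m13 + m14) fun d1 =>
  force (m02 + m12 + m23 + m24) fun d2 =>
  force (m03 + m13 + m23 + m34) fun d3 =>
  force (m04 + m14 + m24 + m34) fun d4 =>
  force (P2 m01 m02 m03 m04 m12 m13 m14 m23 m24 m34 d0 d1 d2 d3 d4) fun p2 =>
  force (N2 m01 m02 m03 m04 m12 m13 m14 m23 m24 m34 d0 d1 d2 d3 d4) fun n2 =>
  force (P3 m01 m02 m03 m04 m12 m13 m14 m23 m24 m34 d0 d1 d2 d3 d4) fun p3 =>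
  force (N3 m01 m02 m03 m04 m12 m13 m14 m23 m24 m34 d0 d1 d2 d3 d4) fun n3 =>
  force (P4 m01 m02 m03 m04 m12 m13 m14 m23 m24 m34 d0 d1 d2 d3 d4) fun p4 =>
  force (N4 m01 m02 m03 m04 m12 m13 m14 m23 m24 m34 d0 d1 d2 d3 d4) fun n4 =>
  decide (Good (d0 + d1 + d2 + d3 + d4) p2 n2 p3 n3 p4 n4)

def chk : Bool :=
  force (7) fun r0 => (List.range r0).all fun m01 =>
  force (r0 - m01) fun r1 => (List.range r1).all fun m02 =>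
  force (r1 - m02) fun r2 => (List.range r2).all fun m03 =>
  force (r2 - m03) fun r3 => (List.range r3).all fun m04 =>
  force (r3 - m04) fun r4 => (List.range r4).all fun m12 =>
  force (r4 - m12) fun r5 => (List.range r5).all fun m13 =>
  force (r5 - m13) fun r6 => (List.range r6).all fun m14 =>
  force (r6 - m14) fun r7 => (List.range r7).all fun m23 =>
  force (r7 - m23) fun r8 => (List.range r8).all fun m24 =>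
  force (r8 - m24) fun r9 => (List.range r9).all fun m34 =>
  ok m01 m02 m03 m04 m12 m13 m14 m23 m24 m34

lemma chk_ok : chk = true := by decide +kernel

lemma all_ok (m01 m02 m03 m04 m12 m13 m14 m23 m24 m34 : ℕ) (h : m01 + m02 + m03 + m04 + m12 + m13 + m14 + m23 + m24 + m34 ≤ 6) :
    m01 + m02 + m03 + m04 = 0 ∨ m01 + m12 + m13 + m14 = 0 ∨ m02 + m03 + m04 + m12 + m13 + m14 = 0 ∨ m02 + m12 + m23 + m24 = 0 ∨ m01 + m03 + m04 + m12 + m23 + m24 = 0 ∨ m01 + m13 + m14 + m02 + m23 + m24 = 0 ∨ m03 + m04 + m13 + m14 + m23 + m24 = 0 ∨ m03 + m13 + m23 + m34 = 0 ∨ m01 + m02 + m04 + m13 + m23 + m34 = 0 ∨ m01 + m12 + m14 + m03 + m23 + m34 = 0 ∨ m02 + m04 + m12 + m14 + m23 + m34 = 0 ∨ m02 + m12 + m24 + m03 + m13 + m34 = 0 ∨ m01 + m04 + m12 + m24 + m13 + m34 = 0 ∨ m01 + m14 + m02 + m24 + m03 + m34 = 0 ∨ m04 + m14 + m24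 + m34 = 0 ∨
    Good ((m01 + m02 + m03 + m04) + (m01 + m12 + m13 + m14) + (m02 + m12 + m23 + m24) + (m03 + m13 + m23 + m34) + (m04 + m14 + m24 + m34)) (P2 m01 m02 m03 m04 m12 m13 m14 m23 m24 m34 (m01 + m02 + m03 + m04) (m01 + m12 + m13 + m14) (m02 + m12 + m23 + m24) (m03 + m13 + m23 + m34) (m04 + m14 + m24 + m34)) (N2 m01 m02 m03 m04 m12 m13 m14 m23 m24 m34 (m01 + m02 + m03 + m04) (m01 + m12 + m13 + m14) (m02 + m12 + m23 + m24) (m03 + m13 + m23 + m34) (m04 + m14 + m24 + m34)) (P3 m01 m02 m03 m04 m12 m13 m14 m23 m24 m34 (m01 + m02 + m03 + m04) (m01 + m12 + m13 + m14) (m02 + m12 + m23 + m24) (m03 + m13 + m23 + m34) (m04 + m14 + m24 + m34)) (N3 m01 m02 m03 m04 m12 m13 m14 m23 m24 m34 (m01 + m02 + m03 + m04) (m01 + m12 + m13 + m14) (m02 + m12 + m23 + m24) (m03 + m13 + m23 + m34) (m04 + m14 + m24 + m34)) (P4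 m01 m02 m03 m04 m12 m13 m14 m23 m24 m34 (m01 + m02 + m03 + m04) (m01 + m12 + m13 + m14) (m02 + m12 + m23 + m24) (m03 + m13 + m23 + m34) (m04 + m14 + m24 + m34)) (N4 m01 m02 m03 m04 m12 m13 m14 m23 m24 m34 (m01 + m02 + m03 + m04) (m01 + m12 + m13 + m14) (m02 + m12 + m23 + m24) (m03 + m13 + m23 + m34) (m04 + m14 + m24 + m34)) := by
  have h1 := chk_ok
  simp only [chk, force_eq, List.all_eq_true, List.mem_range] at h1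
  have h2 := h1 m01 (by omega) m02 (by omega) m03 (by omega) m04 (by omega) m12 (by omega) m13 (by omega) m14 (by omega) m23 (by omega) m24 (by omega) m34 (by omega)
  simp only [ok, force_eq, Bool.or_eq_true, Nat.beq_eq, decide_eq_true_eq, or_assoc] at h2
  exact h2

lemma det5 (M : Matrix (Fin 5) (Fin 5) ℝ) : M.det =
    0 + M 0 0 * M 1 1 * M 2 2 * M 3 3 * M 4 4
    - M 0 0 * M 1 1 * M 2 2 * M 3 4 * M 4 3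
    - M 0 0 * M 1 1 * M 2 3 * M 3 2 * M 4 4
    + M 0 0 * M 1 1 * M 2 3 * M 3 4 * M 4 2
    + M 0 0 * M 1 1 * M 2 4 * M 3 2 * M 4 3
    - M 0 0 * M 1 1 * M 2 4 * M 3 3 * M 4 2
    - M 0 0 * M 1 2 * M 2 1 * M 3 3 * M 4 4
    + M 0 0 * M 1 2 * M 2 1 * M 3 4 * M 4 3
    + M 0 0 * M 1 2 * M 2 3 * M 3 1 * M 4 4
    - M 0 0 * M 1 2 * M 2 3 * M 3 4 * M 4 1
    - M 0 0 * M 1 2 * M 2 4 * M 3 1 * M 4 3
    + M 0 0 * M 1 2 * M 2 4 * M 3 3 * M 4 1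
    + M 0 0 * M 1 3 * M 2 1 * M 3 2 * M 4 4
    - M 0 0 * M 1 3 * M 2 1 * M 3 4 * M 4 2
    - M 0 0 * M 1 3 * M 2 2 * M 3 1 * M 4 4
    + M 0 0 * M 1 3 * M 2 2 * M 3 4 * M 4 1
    + M 0 0 * M 1 3 * M 2 4 * M 3 1 * M 4 2
    - M 0 0 * M 1 3 * M 2 4 * M 3 2 * M 4 1
    - M 0 0 * M 1 4 * M 2 1 * M 3 2 * M 4 3
    + M 0 0 * M 1 4 * M 2 1 * M 3 3 * M 4 2
    + M 0 0 * M 1 4 * M 2 2 * M 3 1 * M 4 3
    - M 0 0 * M 1 4 * M 2 2 * M 3 3 * M 4 1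
    - M 0 0 * M 1 4 * M 2 3 * M 3 1 * M 4 2
    + M 0 0 * M 1 4 * M 2 3 * M 3 2 * M 4 1
    - M 0 1 * M 1 0 * M 2 2 * M 3 3 * M 4 4
    + M 0 1 * M 1 0 * M 2 2 * M 3 4 * M 4 3
    + M 0 1 * M 1 0 * M 2 3 * M 3 2 * M 4 4
    - M 0 1 * M 1 0 * M 2 3 * M 3 4 * M 4 2
    - M 0 1 * M 1 0 * M 2 4 * M 3 2 * M 4 3
    + M 0 1 * M 1 0 * M 2 4 * M 3 3 * M 4 2
    + M 0 1 * M 1 2 * M 2 0 * M 3 3 * M 4 4
    - M 0 1 * M 1 2 * M 2 0 * M 3 4 * M 4 3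
    - M 0 1 * M 1 2 * M 2 3 * M 3 0 * M 4 4
    + M 0 1 * M 1 2 * M 2 3 * M 3 4 * M 4 0
    + M 0 1 * M 1 2 * M 2 4 * M 3 0 * M 4 3
    - M 0 1 * M 1 2 * M 2 4 * M 3 3 * M 4 0
    - M 0 1 * M 1 3 * M 2 0 * M 3 2 * M 4 4
    + M 0 1 * M 1 3 * M 2 0 * M 3 4 * M 4 2
    + M 0 1 * M 1 3 * M 2 2 * M 3 0 * M 4 4
    - M 0 1 * M 1 3 * M 2 2 * M 3 4 * M 4 0
    - M 0 1 * M 1 3 * M 2 4 * M 3 0 * M 4 2
    + M 0 1 * M 1 3 * M 2 4 * M 3 2 * M 4 0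
    + M 0 1 * M 1 4 * M 2 0 * M 3 2 * M 4 3
    - M 0 1 * M 1 4 * M 2 0 * M 3 3 * M 4 2
    - M 0 1 * M 1 4 * M 2 2 * M 3 0 * M 4 3
    + M 0 1 * M 1 4 * M 2 2 * M 3 3 * M 4 0
    + M 0 1 * M 1 4 * M 2 3 * M 3 0 * M 4 2
    - M 0 1 * M 1 4 * M 2 3 * M 3 2 * M 4 0
    + M 0 2 * M 1 0 * M 2 1 * M 3 3 * M 4 4
    - M 0 2 * M 1 0 * M 2 1 * M 3 4 * M 4 3
    - M 0 2 * M 1 0 * M 2 3 * M 3 1 * M 4 4
    + M 0 2 * M 1 0 * M 2 3 * M 3 4 * M 4 1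
    + M 0 2 * M 1 0 * M 2 4 * M 3 1 * M 4 3
    - M 0 2 * M 1 0 * M 2 4 * M 3 3 * M 4 1
    - M 0 2 * M 1 1 * M 2 0 * M 3 3 * M 4 4
    + M 0 2 * M 1 1 * M 2 0 * M 3 4 * M 4 3
    + M 0 2 * M 1 1 * M 2 3 * M 3 0 * M 4 4
    - M 0 2 * M 1 1 * M 2 3 * M 3 4 * M 4 0
    - M 0 2 * M 1 1 * M 2 4 * M 3 0 * M 4 3
    + M 0 2 * M 1 1 * M 2 4 * M 3 3 * M 4 0
    + M 0 2 * M 1 3 * M 2 0 * M 3 1 * M 4 4
    - M 0 2 * M 1 3 * M 2 0 * M 3 4 * M 4 1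
    - M 0 2 * M 1 3 * M 2 1 * M 3 0 * M 4 4
    + M 0 2 * M 1 3 * M 2 1 * M 3 4 * M 4 0
    + M 0 2 * M 1 3 * M 2 4 * M 3 0 * M 4 1
    - M 0 2 * M 1 3 * M 2 4 * M 3 1 * M 4 0
    - M 0 2 * M 1 4 * M 2 0 * M 3 1 * M 4 3
    + M 0 2 * M 1 4 * M 2 0 * M 3 3 * M 4 1
    + M 0 2 * M 1 4 * M 2 1 * M 3 0 * M 4 3
    - M 0 2 * M 1 4 * M 2 1 * M 3 3 * M 4 0
    - M 0 2 * M 1 4 * M 2 3 * M 3 0 * M 4 1
    + M 0 2 * M 1 4 * M 2 3 * M 3 1 * M 4 0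
    - M 0 3 * M 1 0 * M 2 1 * M 3 2 * M 4 4
    + M 0 3 * M 1 0 * M 2 1 * M 3 4 * M 4 2
    + M 0 3 * M 1 0 * M 2 2 * M 3 1 * M 4 4
    - M 0 3 * M 1 0 * M 2 2 * M 3 4 * M 4 1
    - M 0 3 * M 1 0 * M 2 4 * M 3 1 * M 4 2
    + M 0 3 * M 1 0 * M 2 4 * M 3 2 * M 4 1
    + M 0 3 * M 1 1 * M 2 0 * M 3 2 * M 4 4
    - M 0 3 * M 1 1 * M 2 0 * M 3 4 * M 4 2
    - M 0 3 * M 1 1 * M 2 2 * M 3 0 * M 4 4
    + M 0 3 * M 1 1 * M 2 2 * M 3 4 * M 4 0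
    + M 0 3 * M 1 1 * M 2 4 * M 3 0 * M 4 2
    - M 0 3 * M 1 1 * M 2 4 * M 3 2 * M 4 0
    - M 0 3 * M 1 2 * M 2 0 * M 3 1 * M 4 4
    + M 0 3 * M 1 2 * M 2 0 * M 3 4 * M 4 1
    + M 0 3 * M 1 2 * M 2 1 * M 3 0 * M 4 4
    - M 0 3 * M 1 2 * M 2 1 * M 3 4 * M 4 0
    - M 0 3 * M 1 2 * M 2 4 * M 3 0 * M 4 1
    + M 0 3 * M 1 2 * M 2 4 * M 3 1 * M 4 0
    + M 0 3 * M 1 4 * M 2 0 * M 3 1 * M 4 2
    - M 0 3 * M 1 4 * M 2 0 * M 3 2 * M 4 1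
    - M 0 3 * M 1 4 * M 2 1 * M 3 0 * M 4 2
    + M 0 3 * M 1 4 * M 2 1 * M 3 2 * M 4 0
    + M 0 3 * M 1 4 * M 2 2 * M 3 0 * M 4 1
    - M 0 3 * M 1 4 * M 2 2 * M 3 1 * M 4 0
    + M 0 4 * M 1 0 * M 2 1 * M 3 2 * M 4 3
    - M 0 4 * M 1 0 * M 2 1 * M 3 3 * M 4 2
    - M 0 4 * M 1 0 * M 2 2 * M 3 1 * M 4 3
    + M 0 4 * M 1 0 * M 2 2 * M 3 3 * M 4 1
    + M 0 4 * M 1 0 * M 2 3 * M 3 1 * M 4 2
    - M 0 4 * M 1 0 * M 2 3 * M 3 2 * M 4 1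
    - M 0 4 * M 1 1 * M 2 0 * M 3 2 * M 4 3
    + M 0 4 * M 1 1 * M 2 0 * M 3 3 * M 4 2
    + M 0 4 * M 1 1 * M 2 2 * M 3 0 * M 4 3
    - M 0 4 * M 1 1 * M 2 2 * M 3 3 * M 4 0
    - M 0 4 * M 1 1 * M 2 3 * M 3 0 * M 4 2
    + M 0 4 * M 1 1 * M 2 3 * M 3 2 * M 4 0
    + M 0 4 * M 1 2 * M 2 0 * M 3 1 * M 4 3
    - M 0 4 * M 1 2 * M 2 0 * M 3 3 * M 4 1
    - M 0 4 * M 1 2 * M 2 1 * M 3 0 * M 4 3
    + M 0 4 * M 1 2 * M 2 1 * M 3 3 * M 4 0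
    + M 0 4 * M 1 2 * M 2 3 * M 3 0 * M 4 1
    - M 0 4 * M 1 2 * M 2 3 * M 3 1 * M 4 0
    - M 0 4 * M 1 3 * M 2 0 * M 3 1 * M 4 2
    + M 0 4 * M 1 3 * M 2 0 * M 3 2 * M 4 1
    + M 0 4 * M 1 3 * M 2 1 * M 3 0 * M 4 2
    - M 0 4 * M 1 3 * M 2 1 * M 3 2 * M 4 0
    - M 0 4 * M 1 3 * M 2 2 * M 3 0 * M 4 1
    + M 0 4 * M 1 3 * M 2 2 * M 3 1 * M 4 0
    := by
  simp [Matrix.det_succ_row_zero, Fin.sum_univ_succ, Fin.succAbove, Matrix.submatrix]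
  ring

lemma lapdet (x m01 m02 m03 m04 m12 m13 m14 m23 m24 m34 : ℝ) :
    Matrix.det !![x - (m01 + m02 + m03 + m04) / 2, m01 / 2, m02 / 2, m03 / 2, m04 / 2;
      m01 / 2, x - (m01 + m12 + m13 + m14) / 2, m12 / 2, m13 / 2, m14 / 2;
      m02 / 2, m12 / 2, x - (m02 + m12 + m23 + m24) / 2, m23 / 2, m24 / 2;
      m03 / 2, m13 / 2, m23 / 2, x - (m03 + m13 + m23 + m34) / 2, m34 / 2;
      m04 / 2, m14 / 2, m24 / 2, m34 / 2, x - (m04 + m14 + m24 + m34) / 2] =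
    x ^ 5 - ((m01 + m02 + m03 + m04) + (m01 + m12 + m13 + m14) + (m02 + m12 + m23 + m24) + (m03 + m13 + m23 + m34) + (m04 + m14 + m24 + m34)) / 2 * x ^ 4 + (P2 m01 m02 m03 m04 m12 m13 m14 m23 m24 m34 (m01 + m02 + m03 + m04) (m01 + m12 + m13 + m14) (m02 + m12 + m23 + m24) (m03 + m13 + m23 + m34) (m04 + m14 + m24 + m34) - N2 m01 m02 m03 m04 m12 m13 m14 m23 m24 m34 (m01 + m02 + m03 + m04) (m01 + m12 + m13 + m14) (m02 + m12 + m23 + m24) (m03 + m13 + m23 + m34) (m04 + m14 + m24 + m34)) / 4 * x ^ 3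
    - (P3 m01 m02 m03 m04 m12 m13 m14 m23 m24 m34 (m01 + m02 + m03 + m04) (m01 + m12 + m13 + m14) (m02 + m12 + m23 + m24) (m03 + m13 + m23 + m34) (m04 + m14 + m24 + m34) - N3 m01 m02 m03 m04 m12 m13 m14 m23 m24 m34 (m01 + m02 + m03 + m04) (m01 + m12 + m13 + m14) (m02 + m12 + m23 + m24) (m03 + m13 + m23 + m34) (m04 + m14 + m24 + m34)) / 8 * x ^ 2
    + 5 * (P4 m01 m02 m03 m04 m12 m13 m14 m23 m24 m34 (m01 + m02 + m03 + m04) (m01 + m12 + m13 + m14) (m02 + m12 + m23 + m24) (m03 + m13 + m23 + m34) (m04 + m14 + m24 + m34) - N4 m01 m02 m03 m04 m12 m13 m14 m23 m24 m34 (m01 + m02 + m03 + m04) (m01 + m12 + m13 + m14) (m02 + m12 + m23 + m24) (m03 + m13 + m23 + m34) (m04 + m14 + m24 + m34)) / 16 * x := by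
  rw [det5]
  simp only [P2, N2, P3, N3, P4, N4, Matrix.of_apply, Matrix.cons_val', Matrix.cons_val_zero, Matrix.cons_val_one,
    Matrix.cons_val]
  ring

end Pool.Agent.H.MP_c32163_co
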